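import Pool.Agent.helper12.TZ.Spec

/-! # Project tz, module HDB: the triples with `U ⊓ ⟨s⟩ ≠ ⊥` -/

set_option autoImplicit false

namespace Pool.Agent.TZ

open Pool.Agent.helper58.DC Pool.Agent.DI Pool.Agent.GR Pool.Agent.OB

theorem HDB (hTOG : TOG_stmt) : HDB_stmt := by
  classical
  intro G _ _ p m _ g D hD hg ht ζ P
  set S : Set (Tr G) := {x : Tr G | x ∈ XX p g D ∧ UX m D x ⊓ Subgroup.zpowers (x.1 ^ m) ≠ ⊥ ∧
      P x.1 x.2.1 (UX m D x)} with hS
  have hSf : S.Finite := S.toFinite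
  rw [finsum_mem_eq_finite_toFinset_sum _ hSf]
  let φ : Tr G → G × G × Subgroup G := fun x => (x.1, x.2.1, UX m D x)
  have hfib : ∑ x ∈ hSf.toFinset, wt g ζ x =
      ∑ y ∈ hSf.toFinset.image φ, ∑ x ∈ hSf.toFinset.filter (fun x => φ x = y), wt g ζ x :=
    (Finset.sum_fiberwise_of_maps_to (fun x hx => Finset.mem_image_of_mem φ hx) _).symm
  rw [hfib]
  refine Finset.sum_eq_zero ?_
  rintro ⟨t, y, U⟩ hy
  rw [Finset.mem_image] at hy
  obtain ⟨x0, hx0, hx0e⟩ := hy
  rw [Set.Finite.mem_toFinset] at hx0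
  obtain ⟨_, hx0b, hx0c⟩ := hx0
  have e1 : x0.1 = t := congrArg Prod.fst hx0e
  have e2 : x0.2.1 = y := congrArg (fun z => z.2.1) hx0e
  have e3 : UX m D x0 = U := congrArg (fun z => z.2.2) hx0e
  rw [e1, e3] at hx0b
  rw [e1, e2, e3] at hx0c
  set T : Set (Finset (Subgroup G)) := {C : Finset (Subgroup G) | (t, y, C) ∈ XX p g D ∧
    UX m D (t, y, C) = U} with hT
  have hTf : T.Finite := T.toFinite
  have hTOG' := hTOG G p m g D hD hg ht t y U hx0b
  rw [finsum_mem_eq_finite_toFinset_sum _ (show T.Finite from hTf)] at hTOG'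
  have hset : hSf.toFinset.filter (fun x => φ x = (t, y, U)) =
      hTf.toFinset.image (fun C => ((t, y, C) : Tr G)) := by
    ext ⟨t', y', C⟩
    rw [Finset.mem_filter, Set.Finite.mem_toFinset, Finset.mem_image]
    constructor
    · rintro ⟨⟨ha, hb, hc⟩, hd⟩
      have d1 : t' = t := congrArg Prod.fst hd
      have d2 : y' = y := congrArg (fun z => z.2.1) hd
      have d3 : UX m D (t', y', C) = U := congrArg (fun z => z.2.2) hd
      subst d1 d2
      refine ⟨C, ?_, rfl⟩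
      rw [Set.Finite.mem_toFinset]
      exact ⟨ha, d3⟩
    · rintro ⟨C', hC', he⟩
      rw [Set.Finite.mem_toFinset] at hC'
      rw [← he]
      obtain ⟨ha, hb⟩ := hC'
      refine ⟨⟨ha, ?_, ?_⟩, ?_⟩
      · change UX m D (t, y, C') ⊓ Subgroup.zpowers (t ^ m) ≠ ⊥
        rw [hb]
        exact hx0b
      · change P t y (UX m D (t, y, C'))
        rw [hb]
        exact hx0c
      · change (t, y, UX m D (t, y, C')) = (t, y, U)
        rw [hb]
  rw [hset, Finset.sum_image (by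
    intro a _ b _ hab
    exact congrArg (fun z : Tr G => z.2.2) hab)]
  have hsum : ∑ C ∈ hTf.toFinset, wt g ζ (t, y, C) =
      ((∑ C ∈ hTf.toFinset, (-1 : ℤ) ^ (C.card + 1) : ℤ) : ℂ) *
        ζ (t * y * t⁻¹ * y⁻¹ * g)⁻¹ := by
    push_cast
    rw [Finset.sum_mul]
    rfl
  rw [hsum, hTOG']
  simp

end Pool.Agent.TZ
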