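import Pool.Agent.helper12.TZ.SpecI

/-!
# TZ: row IMW, Moebius inversion in a subgroup
-/

set_option autoImplicit false

namespace Pool.Agent.TZ

open Pool.Agent.helper58.DC Pool.Agent.DI Pool.Agent.GR Pool.Agent.OB

open scoped Classical in
theorem IMW_sum {A : Type} [Group A] [Fintype (Subgroup A)] (T : Subgroup A → ℤ)
    (Q : Subgroup A → Prop) :
    ∑ᶠ V : {V : Subgroup A // Q V}, T V.1 = ∑ V ∈ Finset.univ.filter Q, T V := by
  rw [finsum_eq_sum_of_fintype]
  rw [Finset.sum_subtype (Finset.univ.filter Q) (p := Q) (fun x => by simp) (fun V => T V)]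

open scoped Classical in
theorem IMW_moeb {A : Type} [Group A] [Fintype (Subgroup A)] (T : Subgroup A → ℤ) (p : ℕ)
    (W : Subgroup A)
    (h : ∀ U : Subgroup A, U ≤ W →
      (p : ℤ) ∣ ∑ V ∈ Finset.univ.filter (fun V : Subgroup A => U ≤ V), T V) :
    ∀ U : Subgroup A, U ≤ W →
      (p : ℤ) ∣ ∑ V ∈ Finset.univ.filter (fun V : Subgroup A => V ⊓ W = U), T V := by
  intro U
  induction U using WellFoundedGT.induction with
  | ind U ih =>
    intro hU
    have h1 := h U hU
    have hmap : ∀ V ∈ Finset.univ.filter (fun V : Subgroup A => U ≤ V),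
        V ⊓ W ∈ Finset.univ.filter (fun V : Subgroup A => U ≤ V ∧ V ≤ W) := by
      intro V hV
      simp only [Finset.mem_filter, Finset.mem_univ, true_and] at hV ⊢
      exact ⟨le_inf hV hU, inf_le_right⟩
    have h2 := Finset.sum_fiberwise_of_maps_to hmap (fun V => T V)
    have hUmem : U ∈ Finset.univ.filter (fun V : Subgroup A => U ≤ V ∧ V ≤ W) := by
      simp only [Finset.mem_filter, Finset.mem_univ, true_and]
      exact ⟨le_rfl, hU⟩
    rw [← Finset.add_sum_erase _ _ hUmem] at h2
    have hf : ∀ U' : Subgroup A, U ≤ U' →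
        ((Finset.univ.filter (fun V : Subgroup A => U ≤ V)).filter (fun V => V ⊓ W = U')) =
          Finset.univ.filter (fun V : Subgroup A => V ⊓ W = U') := by
      intro U' hU'
      ext V
      simp only [Finset.mem_filter, Finset.mem_univ, true_and]
      constructor
      · rintro ⟨-, h3⟩
        exact h3
      · intro h3
        refine ⟨?_, h3⟩
        have h4 : U ≤ V ⊓ W := h3 ▸ hU'
        exact h4.trans inf_le_left
    have h5 : (p : ℤ) ∣ ∑ U' ∈ (Finset.univ.filter (fun V : Subgroup A => U ≤ V ∧ V ≤ W)).erase U,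
        ∑ V ∈ (Finset.univ.filter (fun V : Subgroup A => U ≤ V)).filter (fun V => V ⊓ W = U'), T V := by
      apply Finset.dvd_sum
      intro U' hU'
      simp only [Finset.mem_erase, Finset.mem_filter, Finset.mem_univ, true_and] at hU'
      obtain ⟨hne, hle, hle2⟩ := hU'
      rw [hf U' hle]
      exact ih U' (lt_of_le_of_ne hle (Ne.symm hne)) hle2
    rw [← h2] at h1
    have h6 := (dvd_add_left h5).1 h1
    rw [hf U le_rfl] at h6
    exact h6

/-- IMW -/
theorem IMW : IMW_stmt := by
  classical
  intro p A _ _ T W h U hU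
  have : Fintype (Subgroup A) := Fintype.ofFinite _
  rw [IMW_sum T (fun V : Subgroup A => V ⊓ W = U)]
  refine IMW_moeb T p W (fun U' hU' => ?_) U hU
  have h1 := h U' hU'
  rw [IMW_sum T (fun V : Subgroup A => U' ≤ V)] at h1
  exact h1

end Pool.Agent.TZ
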